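import Pool.Agent.MWLE.StmtsA

/-!
# MWLE, row VVD: doubling of an image
-/

namespace Pool.Agent.MWLE.H52

open Pool.Agent.Helper14_MV Pool.Agent.Helper2_MV Pool.Agent.MWLE
open Pool.Agent.MWK (pre Gw)
open Pool.Agent.MWF (Ap gaml dbl)
open Pool.Agent.MWGN (nn Gz E0 P0 A0 Tau gh)

theorem sq4 {β : FIC} (H : Gz β) (c : ℕ) (A B : List ℕ) :
    RR β (A ++ (c :: c :: B)) (A ++ (c :: c :: c :: c :: B)) := by
  have h1 : RR β [0, 0] [0, 0, 0] := H.gw.ap.sq
  have h2 : RR β [0, 0, 0] [0, 0, 0, 0] := h1.append (RR.refl [0])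
  have h3 : RR β [0, 0] [0, 0, 0, 0] := β.trans h1 h2
  have h4 := RR.sub (fun _ => [c]) h3
  have h5 := (RR.refl (β := β) A).append (h4.append (RR.refl B))
  simpa using h5

theorem dbm {β : FIC} (H : Gz β) (c : ℕ) (A B : List ℕ) (hc : c ∈ A) :
    RR β (A ++ (c :: B)) (A ++ (c :: c :: B)) := by
  obtain ⟨A1, A2, rfl⟩ := List.append_of_mem hc
  have h1 : RR β [0, 1, 0] [0, 1, 0, 0] := H.gw.gm
  have h4 := RR.sub (fun d => if d = 0 then [c] else A2) h1
  have h5 := (RR.refl (β := β) A1).append (h4.append (RR.refl B))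
  simpa using h5

theorem vvd_l1 {β : FIC} (H : Gz β) (e : ℕ) : ∀ (v A B : List ℕ),
    (∀ c ∈ v, c % 5 = 4 ∨ c = e ∨ c ∈ A) →
      RR β (A ++ (v.flatMap (psi e) ++ B)) (A ++ (dbl (v.flatMap (psi e)) ++ B)) := by
  intro v
  induction v with
  | nil => intro A B _; exact RR.refl _
  | cons c v ih =>
    intro A B h
    have hv : ∀ d ∈ v, d % 5 = 4 ∨ d = e ∨ d ∈ A := fun d hd => h d (List.mem_cons_of_mem _ hd)
    by_cases hce : c = e
    · have e1 : (c :: v).flatMap (psi e) = v.flatMap (psi e) := by
        rw [List.flatMap_cons]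
        simp [psi, hce]
      rw [e1]
      exact ih A B hv
    · by_cases hc4 : c % 5 = 4
      · have e1 : (c :: v).flatMap (psi e) = c :: c :: v.flatMap (psi e) := by
          rw [List.flatMap_cons]
          simp [psi, hce, hc4]
        rw [e1]
        have s1 := sq4 H c A (v.flatMap (psi e) ++ B)
        have s2 := ih (A ++ [c, c, c, c]) B (fun d hd => by
          rcases hv d hd with h1 | h1 | h1
          · exact Or.inl h1
          · exact Or.inr (Or.inl h1)
          · exact Or.inr (Or.inr (List.mem_append_left _ h1)))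
        have e2 : A ++ (c :: c :: c :: c :: (v.flatMap (psi e) ++ B)) =
            (A ++ [c, c, c, c]) ++ (v.flatMap (psi e) ++ B) := by simp
        have e3 : A ++ (dbl (c :: c :: v.flatMap (psi e)) ++ B) =
            (A ++ [c, c, c, c]) ++ (dbl (v.flatMap (psi e)) ++ B) := by simp [dbl]
        rw [e3]
        rw [e2] at s1
        exact β.trans s1 s2
      · have hcA : c ∈ A := by
          rcases h c (by simp) with h1 | h1 | h1
          · exact absurd h1 hc4
          · exact absurd h1 hce
          · exact h1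
        have e1 : (c :: v).flatMap (psi e) = c :: v.flatMap (psi e) := by
          rw [List.flatMap_cons]
          simp [psi, hce, hc4]
        rw [e1]
        have s1 := dbm H c A (v.flatMap (psi e) ++ B) hcA
        have s2 := ih (A ++ [c, c]) B (fun d hd => by
          rcases hv d hd with h1 | h1 | h1
          · exact Or.inl h1
          · exact Or.inr (Or.inl h1)
          · exact Or.inr (Or.inr (List.mem_append_left _ h1)))
        have e2 : A ++ (c :: c :: (v.flatMap (psi e) ++ B)) =
            (A ++ [c, c]) ++ (v.flatMap (psi e) ++ B) := by simp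
        have e3 : A ++ (dbl (c :: v.flatMap (psi e)) ++ B) =
            (A ++ [c, c]) ++ (dbl (v.flatMap (psi e)) ++ B) := by simp [dbl]
        rw [e3]
        rw [e2] at s1
        exact β.trans s1 s2

theorem vvd (hD : DdcStmt) : VvdStmt := by
  intro β H e A v B h
  have h' : ∀ c ∈ v, c % 5 = 4 ∨ c = e ∨ c ∈ A.flatMap (psi e) := by
    intro c hc
    rcases h c hc with h1 | h1 | h1
    · exact Or.inl h1
    · exact Or.inr (Or.inl h1)
    · by_cases h4 : c % 5 = 4
      · exact Or.inl h4
      · by_cases he : c = e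
        · exact Or.inr (Or.inl he)
        · refine Or.inr (Or.inr (List.mem_flatMap.2 ⟨c, h1, ?_⟩))
          simp [psi, he, h4]
  simp only [List.flatMap_append]
  have s1 := vvd_l1 H e v (A.flatMap (psi e)) (B.flatMap (psi e)) h'
  have s2 := (hD β H (v.flatMap (psi e)) [] (A.flatMap (psi e)) (B.flatMap (psi e))).2.1
  have s3 := vvd_l1 H e v (A.flatMap (psi e))
    (dbl (v.flatMap (psi e)) ++ B.flatMap (psi e)) h'
  have s4 := (hD β H (v.flatMap (psi e)) [] (A.flatMap (psi e) ++ v.flatMap (psi e))
    (B.flatMap (psi e))).2.2 (fun c hc => List.mem_append_right _ hc)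
  simp only [List.append_assoc] at s4
  exact β.trans s1 (β.trans s2 (β.trans s3.symm s4.symm))

end Pool.Agent.MWLE.H52
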